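import Pool.Agent.TH669.AD.Free
import Pool.Agent.Y428.Ab.Top
import Pool.Agent.H694R4.Fin

/-!
# Even cycles and groups of almost all orders
-/

set_option autoImplicit false

namespace Pool.Agent.Q276.AO

open SimpleGraph Pool.Agent.TH669.AD

/-- free actions: number of points -/
theorem card_free (C V : Type) [Group C] [Finite C] [Finite V] [MulAction C V]
    (hfree : ∀ (g : C) (v : V), g • v = v → g = 1) :
    Nat.card V = Nat.card C * Nat.card (MulAction.orbitRel.Quotient C V) := by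
  classical
  have := Fintype.ofFinite C
  have := Fintype.ofFinite V
  have := Fintype.ofFinite (MulAction.orbitRel.Quotient C V)
  rw [Nat.card_eq_fintype_card, Nat.card_eq_fintype_card, Nat.card_eq_fintype_card,
    MulAction.card_eq_sum_card_group_div_card_stabilizer C V]
  have h : ∀ ω : MulAction.orbitRel.Quotient C V,
      Fintype.card C / Fintype.card (MulAction.stabilizer C (Quotient.out ω)) =
        Fintype.card C := by
    intro ω
    have h1 : MulAction.stabilizer C (Quotient.out ω) = ⊥ := by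
      rw [eq_bot_iff]
      intro g hg
      rw [Subgroup.mem_bot]
      exact hfree g _ (MulAction.mem_stabilizer_iff.1 hg)
    have h2 : Fintype.card (MulAction.stabilizer C (Quotient.out ω)) = 1 := by
      rw [← Nat.card_eq_fintype_card, h1]
      exact Subgroup.card_bot
    rw [h2, Nat.div_one]
  rw [Finset.sum_congr rfl (fun ω _ => h ω), Finset.sum_const, Finset.card_univ, smul_eq_mul,
    mul_comm]

/-- real form -/
theorem real_form {m n e B K : ℝ} {k ℓ : ℕ} (hn : 0 < n) (hk : 0 < k)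
    (hmain : m * e ^ ℓ ≤ K * B * n ^ (ℓ + 1)) (hm : 0 ≤ m) {ε : ℝ} (hε : 0 < ε)
    (he : ε * n ^ (1 + 1 / (k : ℝ)) ≤ e) :
    ε ^ ℓ * m ≤ K * B * n ^ (1 - (ℓ : ℝ) / (k : ℝ)) := by
  have hk' : (0 : ℝ) < k := by exact_mod_cast hk
  have h1 : (ε * n ^ (1 + 1 / (k : ℝ))) ^ ℓ ≤ e ^ ℓ :=
    pow_le_pow_left₀ (by positivity) he ℓ
  have h2 : m * (ε * n ^ (1 + 1 / (k : ℝ))) ^ ℓ ≤ K * B * n ^ (ℓ + 1) :=
    (mul_le_mul_of_nonneg_left h1 hm).trans hmain
  have h3 : (n ^ (1 + 1 / (k : ℝ))) ^ ℓ = n ^ ((ℓ : ℝ) + ℓ / k) := by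
    rw [← Real.rpow_natCast, ← Real.rpow_mul hn.le]
    congr 1
    field_simp
  have h4 : n ^ (ℓ + 1) = n ^ ((ℓ : ℝ) + ℓ / k) * n ^ (1 - (ℓ : ℝ) / (k : ℝ)) := by
    rw [← Real.rpow_add hn, ← Real.rpow_natCast]
    congr 1
    push_cast
    ring
  rw [mul_pow, h3, h4] at h2
  have hpos : 0 < n ^ ((ℓ : ℝ) + ℓ / k) := Real.rpow_pos_of_pos hn _
  have h5 : n ^ ((ℓ : ℝ) + ℓ / k) * (ε ^ ℓ * m) ≤
      n ^ ((ℓ : ℝ) + ℓ / k) * (K * B * n ^ (1 - (ℓ : ℝ) / (k : ℝ))) := by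
    nlinarith
  exact le_of_mul_le_mul_left h5 hpos

/-- the conclusions for a group of good order -/
theorem even_part {y S m : ℕ} {U : ℝ} (hSy : S ≤ y) (hg : GoodDeg y S U m) (hm : 0 < m)
    (V : Type) [Finite V] [Nonempty V] (X : SimpleGraph V) (A : Type) [Group A] [Finite A]
    [MulAction A V] (horb : ∀ v : V, (MulAction.orbit A v).ncard = m)
    (hA : Nat.card A ≤ S * m) (haut : ∀ (a : A) (u v : V), X.Adj u v → X.Adj (a • u) (a • v))
    (k : ℕ) (hX : (cycleGraph (2 * k)).Free X) :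
    (3 ≤ k → (m : ℝ) * (X.edgeSet.ncard : ℝ) ≤ 2 * ((k : ℝ) + 1) ^ 2 * U * (Nat.card V : ℝ) ^ 2) ∧
    ∀ (ℓ j C : ℕ), k = 3 * ℓ + 2 * j →
      (∀ (Γ V : Type) [CommGroup Γ] [Finite V] [MulAction Γ V] (X : SimpleGraph V)
        (_ : ∀ (g : Γ) (a c : V), X.Adj a c → X.Adj (g • a) (g • c))
        (_ : ∀ (g : Γ) (a : V), g • a = a → g = 1)
        (_ : (cycleGraph (2 * (3 * ℓ + 2 * j))).Free X),
        X.edgeSet.ncard ^ ℓ ≤
          C * (Nat.card V ^ ℓ * Nat.card (MulAction.orbitRel.Quotient Γ V))) →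
      (m : ℝ) * (X.edgeSet.ncard : ℝ) ^ ℓ ≤ C * U * (Nat.card V : ℝ) ^ (ℓ + 1) := by
  classical
  obtain ⟨c, hfree, hc⟩ := exists_free hSy hg hm A V horb hA
  have hcomm : ∀ a b : Subgroup.zpowers c, a * b = b * a := by
    intro a b
    obtain ⟨i, hi⟩ := Subgroup.mem_zpowers_iff.1 a.2
    obtain ⟨j, hj⟩ := Subgroup.mem_zpowers_iff.1 b.2
    apply Subtype.ext
    rw [Subgroup.coe_mul, Subgroup.coe_mul, ← hi, ← hj, ← zpow_add, ← zpow_add, add_comm]
  have hfree' : ∀ (g : Subgroup.zpowers c) (v : V), g • v = v → g = 1 :=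
    fun g v hv => Subtype.ext (hfree g.1 g.2 v hv)
  have haut' : ∀ (g : Subgroup.zpowers c) (a b : V), X.Adj a b → X.Adj (g • a) (g • b) :=
    fun g a b h => haut g.1 a b h
  have hcard := card_free (Subgroup.zpowers c) V hfree'
  set t := Nat.card (MulAction.orbitRel.Quotient (Subgroup.zpowers c) V) with ht
  -- `m t ≤ U n`
  have hmt : (m : ℝ) * t ≤ U * (Nat.card V : ℝ) := by
    rw [hcard]
    push_cast
    have ht0 : (0 : ℝ) ≤ t := Nat.cast_nonneg _
    nlinarith [mul_le_mul_of_nonneg_right hc ht0]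
  refine ⟨?_, ?_⟩
  · intro hk
    letI : CommGroup (Subgroup.zpowers c) := { mul_comm := hcomm }
    have hn1 : Group.nilpotencyClass (Subgroup.zpowers c) ≤ 1 := CommGroup.nilpotencyClass_le_one
    have h1 := Pool.Agent.H694R4.edges_le X haut' 1 k hn1 le_rfl (by omega) hX
    rw [← ht] at h1
    have h2 : (X.edgeSet.ncard : ℝ) ≤ 2 * ((k : ℝ) + 1) ^ 2 * t * (Nat.card V : ℝ) := by
      exact_mod_cast h1
    have hm0 : (0 : ℝ) ≤ m := Nat.cast_nonneg _
    have hV0 : (0 : ℝ) ≤ (Nat.card V : ℝ) := Nat.cast_nonneg _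
    calc (m : ℝ) * (X.edgeSet.ncard : ℝ)
        ≤ m * (2 * ((k : ℝ) + 1) ^ 2 * t * (Nat.card V : ℝ)) := mul_le_mul_of_nonneg_left h2 hm0
      _ = 2 * ((k : ℝ) + 1) ^ 2 * (Nat.card V : ℝ) * (m * t) := by ring
      _ ≤ 2 * ((k : ℝ) + 1) ^ 2 * (Nat.card V : ℝ) * (U * (Nat.card V : ℝ)) :=
          mul_le_mul_of_nonneg_left hmt (by positivity)
      _ = _ := by ring
  · intro ℓ j C hkl hC
    subst hkl
    letI : CommGroup (Subgroup.zpowers c) := { mul_comm := hcomm }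
    have h1 := hC (Subgroup.zpowers c) V X haut' hfree' hX
    have h2 : (X.edgeSet.ncard : ℝ) ^ ℓ ≤ C * ((Nat.card V : ℝ) ^ ℓ * t) := by
      exact_mod_cast h1
    have hm0 : (0 : ℝ) ≤ m := Nat.cast_nonneg _
    calc (m : ℝ) * (X.edgeSet.ncard : ℝ) ^ ℓ
        ≤ m * (C * ((Nat.card V : ℝ) ^ ℓ * t)) := mul_le_mul_of_nonneg_left h2 hm0
      _ = C * (Nat.card V : ℝ) ^ ℓ * (m * t) := by ring
      _ ≤ C * (Nat.card V : ℝ) ^ ℓ * (U * (Nat.card V : ℝ)) :=
          mul_le_mul_of_nonneg_left hmt (by positivity)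
      _ = _ := by ring

end Pool.Agent.Q276.AO
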